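import Pool.Agent.Y921.NB.Lower

/-!
# Column stabilization of algebraic boundaries of nonnegative rank with quadratically many columns

The definitions (`nonnegRank`, `topologicalBoundary`, `algebraicBoundary`, `deleteColumn`) are those
of the file `Pool/Agent/H838R3/CSDefs.lean`.
-/

set_option autoImplicit false

namespace Pool.Agent.Results.MP_2b7562_ag.QuadraticStabilization

open Pool.Agent.H838R3.CS

/-- The threshold `n₀(r)` of the question satisfies `r + 2 ≤ n₀(r) ≤ r ^ 2 - r + 2` for `r ≥ 3`.
Upper bound (for every `r ≥ 1`): for `n + 1 ≥ r ^ 2 - r + 2` columns, all numbers `m` of rows and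
every `M` in the algebraic boundary of the `m × (n + 1)` matrices of nonnegative rank at most `r`,
some column of `M` can be deleted so that the rest lies in the algebraic boundary for `m × n`.
Lower bound (for every `r ≥ 3`): some matrix in the topological boundary for
`(r + 1) × (r + 1)`, with positive entries, leaves the algebraic boundary whichever column is
deleted. -/
theorem result :
    (∀ r n : ℕ, r * (r - 1) + 2 ≤ n + 1 → ∀ m : ℕ, ∀ M ∈ algebraicBoundary m (n + 1) r,
      ∃ i₀ : Fin (n + 1), deleteColumn M i₀ ∈ algebraicBoundary m n r) ∧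
    (∀ r : ℕ, 3 ≤ r → ∃ M ∈ topologicalBoundary (r + 1) (r + 1) r,
      M ∈ algebraicBoundary (r + 1) (r + 1) r ∧ (∀ i j, 0 < M i j) ∧
      ∀ i₀ : Fin (r + 1), deleteColumn M i₀ ∉ algebraicBoundary (r + 1) r r) := by
  refine ⟨fun r n hn m M hM => Pool.Agent.Y921.NB.main' (by omega) hM, fun r hr => ?_⟩
  obtain ⟨M, h1, h2, h3⟩ := Pool.Agent.Y921.NB.lower hr
  exact ⟨M, h1, fun p hp => hp M h1, h2, h3⟩

end Pool.Agent.Results.MP_2b7562_ag.QuadraticStabilization
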